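import Pool.Agent.Y680.WD.Ops

/-!
Blowing up the vertices of an alpha-critical graph into cliques, and distances.
-/

set_option autoImplicit false

namespace Pool.Agent.Y680.WD

open SimpleGraph

variable {V W : Type}

/-- the graph on `W` in which the fibres of `f` are cliques and two vertices in different fibres
are adjacent when their images are -/
def blow (G : SimpleGraph V) (f : W → V) : SimpleGraph W where
  Adj s t := s ≠ t ∧ (f s = f t ∨ G.Adj (f s) (f t))
  symm := ⟨fun _ _ h => ⟨h.1.symm, h.2.imp Eq.symm fun h => h.symm⟩⟩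
  loopless := ⟨fun _ h => h.1 rfl⟩

theorem blow_of_adj {G : SimpleGraph V} {f : W → V} {s t : W} (h : G.Adj (f s) (f t)) :
    (blow G f).Adj s t := ⟨fun e => h.ne (congrArg f e), Or.inr h⟩

theorem good_blow {G : SimpleGraph V} {a : ℕ} {x y : V} (h : Good G a x y) {f : W → V}
    (hf : Function.Surjective f) {x' y' : W} (hx : ∀ s, f s = x ↔ s = x')
    (hy : ∀ s, f s = y ↔ s = y') : Good (blow G f) a x' y' := by
  classical
  have hfx : f x' = x := (hx x').2 rfl
  have hfy : f y' = y := (hy y').2 rfl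
  have himg : ∀ S : Finset W, (blow G f).IsIndepSet (S : Set W) →
      G.IsIndepSet ((S.image f : Finset V) : Set V) ∧ (S.image f).card = S.card := by
    intro S hS
    rw [indep_iff] at hS
    constructor
    · rw [indep_iff]
      intro p hp q hq hpq
      rw [Finset.mem_image] at hp hq
      obtain ⟨s, hs, rfl⟩ := hp
      obtain ⟨t, ht, rfl⟩ := hq
      exact hS s hs t ht (blow_of_adj hpq)
    · apply Finset.card_image_of_injOn
      intro s hs t ht hst
      by_contra hne
      exact hS s (Finset.mem_coe.1 hs) t (Finset.mem_coe.1 ht) ⟨hne, Or.inl hst⟩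
  -- sections
  have hsec : ∀ (S : Finset V) (σ : V → W), (∀ p, f (σ p) = p) →
      (S.image σ).card = S.card ∧ ∀ p ∈ S.image σ, ∀ q ∈ S.image σ, (blow G f).Adj p q →
        f p ∈ S ∧ f q ∈ S ∧ G.Adj (f p) (f q) ∧ σ (f p) = p ∧ σ (f q) = q := by
    intro S σ hσ
    refine ⟨Finset.card_image_of_injective _ (Function.LeftInverse.injective hσ), ?_⟩
    intro p hp q hq hpq
    rw [Finset.mem_image] at hp hq
    obtain ⟨p, hp, rfl⟩ := hp
    obtain ⟨q, hq, rfl⟩ := hq
    obtain ⟨h1, h2 | h2⟩ := hpq
    · rw [hσ, hσ] at h2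
      exact absurd (congrArg σ h2) h1
    · rw [hσ, hσ] at h2 ⊢
      exact ⟨hp, hq, h2, rfl, rfl⟩
  obtain ⟨σ0, hσ0⟩ := hf.hasRightInverse
  refine ⟨?_, ?_, ?_, ?_, ?_, ?_, ?_, ?_, ?_⟩
  · intro S hS
    rw [← (himg S hS).2]
    exact h.bound _ (himg S hS).1
  · obtain ⟨S, hS, hc⟩ := h.att
    obtain ⟨h1, h2⟩ := hsec S σ0 hσ0
    refine ⟨S.image σ0, ?_, by rw [h1, hc]⟩
    rw [indep_iff] at hS ⊢
    intro p hp q hq hpq
    obtain ⟨h3, h4, h5, _⟩ := h2 p hp q hq hpq
    exact hS _ h3 _ h4 h5
  · rintro s t ⟨hst, he | he⟩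
    · -- an edge in a fibre
      obtain ⟨w, hw⟩ := h.noiso (f s)
      obtain ⟨S, hc, hvS, hwS, hS⟩ := h.crit (f s) w hw
      set T := S.erase w with hT
      have hvT : f s ∈ T := Finset.mem_erase.2 ⟨hw.ne, hvS⟩
      have hTc : T.card = a := by rw [hT, Finset.card_erase_of_mem hwS, hc]; rfl
      have hTi : ∀ p ∈ T, ∀ q ∈ T, ¬ G.Adj p q := by
        intro p hp q hq hpq
        have hp' := Finset.mem_erase.1 hp
        have hq' := Finset.mem_erase.1 hq
        rcases hS p hp'.2 q hq'.2 hpq with h1 | h1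
        · exact hq'.1 h1.2
        · exact hp'.1 h1.1
      set σ : V → W := fun p => if p = f s then s else σ0 p with hσdef
      have hσ : ∀ p, f (σ p) = p := by
        intro p
        simp only [hσdef]
        split_ifs with h1
        · exact h1.symm
        · exact hσ0 p
      have hσs : σ (f s) = s := by simp [hσdef]
      obtain ⟨h1, h2⟩ := hsec T σ hσ
      have hnon : ∀ p ∈ T.image σ, ∀ q ∈ T.image σ, ¬ (blow G f).Adj p q := by
        intro p hp q hq hpq
        obtain ⟨h3, h4, h5, _⟩ := h2 p hp q hq hpq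
        exact hTi _ h3 _ h4 h5
      have htn : t ∉ T.image σ := by
        intro ht
        rw [Finset.mem_image] at ht
        obtain ⟨p, hp, hpt⟩ := ht
        have h3 : p = f s := by rw [he, ← hpt, hσ]
        rw [h3, hσs] at hpt
        exact hst hpt
      have key : ∀ q ∈ T.image σ, (blow G f).Adj t q → q = s := by
        intro q hq hadj
        rw [Finset.mem_image] at hq
        obtain ⟨p, hp, rfl⟩ := hq
        obtain ⟨_, h3 | h3⟩ := hadj
        · rw [hσ, ← he] at h3
          rw [← h3, hσs]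
        · rw [hσ, ← he] at h3
          exact absurd h3 (hTi _ hvT _ hp)
      refine ⟨insert t (T.image σ), ?_, ?_, ?_, ?_⟩
      · rw [Finset.card_insert_of_notMem htn, h1, hTc]
      · exact Finset.mem_insert_of_mem (Finset.mem_image.2 ⟨_, hvT, hσs⟩)
      · exact Finset.mem_insert_self _ _
      · intro p hp q hq hpq
        rw [Finset.mem_insert] at hp hq
        rcases hp with rfl | hp
        · rcases hq with rfl | hq
          · exact absurd rfl hpq.ne
          · exact Or.inr ⟨rfl, key q hq hpq⟩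
        · rcases hq with rfl | hq
          · exact Or.inl ⟨key p hp hpq.symm, rfl⟩
          · exact absurd hpq (hnon p hp q hq)
    · obtain ⟨S, hc, hsS, htS, hS⟩ := h.crit _ _ he
      set σ : V → W := fun p => if p = f s then s else if p = f t then t else σ0 p with hσdef
      have hσ : ∀ p, f (σ p) = p := by
        intro p
        simp only [hσdef]
        split_ifs with h1 h2
        · exact h1.symm
        · exact h2.symm
        · exact hσ0 p
      have hσs : σ (f s) = s := by simp [hσdef]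
      have hσt : σ (f t) = t := by simp [hσdef, he.ne.symm]
      obtain ⟨h1, h2⟩ := hsec S σ hσ
      refine ⟨S.image σ, by rw [h1, hc], Finset.mem_image.2 ⟨_, hsS, hσs⟩,
        Finset.mem_image.2 ⟨_, htS, hσt⟩, ?_⟩
      intro p hp q hq hpq
      obtain ⟨h3, h4, h5, h6, h7⟩ := h2 p hp q hq hpq
      rcases hS _ h3 _ h4 h5 with ⟨h8, h9⟩ | ⟨h8, h9⟩
      · rw [h8, hσs] at h6
        rw [h9, hσt] at h7
        exact Or.inl ⟨h6.symm, h7.symm⟩
      · rw [h8, hσt] at h6
        rw [h9, hσs] at h7
        exact Or.inr ⟨h6.symm, h7.symm⟩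
  · intro s
    obtain ⟨w, hw⟩ := h.noiso (f s)
    obtain ⟨t, rfl⟩ := hf w
    exact ⟨t, blow_of_adj hw⟩
  · have hr : ∀ (p q : V) (_ : G.Walk p q) (s t : W), f s = p → f t = q →
        (blow G f).Reachable s t := by
      intro p q w
      induction w with
      | nil =>
        intro s t hs ht
        by_cases hst : s = t
        · rw [hst]
        · exact SimpleGraph.Adj.reachable ⟨hst, Or.inl (hs.trans ht.symm)⟩
      | @cons p r q hpr _ ih =>
        intro s t hs ht
        obtain ⟨r', hr'⟩ := hf r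
        have h1 : (blow G f).Adj s r' := blow_of_adj (by rw [hs, hr']; exact hpr)
        exact h1.reachable.trans (ih r' t hr' ht)
    refine { preconnected := fun s t => ?_, nonempty := ⟨x'⟩ }
    obtain ⟨w⟩ := h.conn.preconnected (f s) (f t)
    exact hr _ _ w s t rfl rfl
  · intro S hS hc
    obtain ⟨h1, h2⟩ := himg S hS
    rcases h.bad _ h1 (h2.trans hc) with h3 | h3
    · rw [Finset.mem_image] at h3
      obtain ⟨s, hs, hsx⟩ := h3
      exact Or.inl ((hx s).1 hsx ▸ hs)
    · rw [Finset.mem_image] at h3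
      obtain ⟨s, hs, hsy⟩ := h3
      exact Or.inr ((hy s).1 hsy ▸ hs)
  · obtain ⟨p, q, hpq, h1, h2⟩ := h.degx
    refine ⟨σ0 p, σ0 q, fun e => hpq ?_, blow_of_adj ?_, blow_of_adj ?_⟩
    · rw [← hσ0 p, ← hσ0 q, e]
    · rw [hfx, hσ0]; exact h1
    · rw [hfx, hσ0]; exact h2
  · obtain ⟨p, q, hpq, h1, h2⟩ := h.degy
    refine ⟨σ0 p, σ0 q, fun e => hpq ?_, blow_of_adj ?_, blow_of_adj ?_⟩
    · rw [← hσ0 p, ← hσ0 q, e]
    · rw [hfy, hσ0]; exact h1
    · rw [hfy, hσ0]; exact h2
  · intro e
    exact h.hxy (by rw [← hfx, ← hfy, e])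

/-- a function that changes by at most one along edges bounds the distance -/
theorem lip_dist {G : SimpleGraph V} (hc : G.Connected) {g : V → ℕ}
    (hg : ∀ p q, G.Adj p q → g q ≤ g p + 1) (x y : V) : g x ≤ g y + G.dist x y := by
  obtain ⟨w, hw⟩ := (hc.preconnected x y).exists_walk_length_eq_dist
  rw [← hw]
  clear hw
  induction w with
  | nil => simp
  | @cons p r q hpr w' ih =>
    rw [SimpleGraph.Walk.length_cons]
    have := hg r p hpr.symm
    omega

end Pool.Agent.Y680.WD
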