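import Pool.Agent.Y680.WD.Sub
import Pool.Agent.Y680.WD.Blow

/-!
Moving the two vertices of the pair apart.
-/

set_option autoImplicit false

namespace Pool.Agent.Y680.WD

open SimpleGraph

variable {V : Type}

/-- `x` has exactly two neighbours, at distances at least `m1` and `m2` from `y` in the graph
without `x`, and every vertex has two neighbours -/
structure Far (G : SimpleGraph V) (x y : V) (m1 m2 : ℕ) : Prop where
  ex : ∃ (h : V → ℕ) (u w : V), u ≠ w ∧ G.Adj u x ∧ G.Adj w x ∧ (∀ p, G.Adj x p → p = u ∨ p = w) ∧
    h y = 0 ∧ (∀ p q, G.Adj p q → p ≠ x → q ≠ x → h q ≤ h p + 1) ∧ m1 ≤ h u ∧ m2 ≤ h w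
  deg : ∀ v : V, ∃ p q : V, p ≠ q ∧ G.Adj v p ∧ G.Adj v q

theorem far_step {G : SimpleGraph V} {a m1 m2 : ℕ} {x y : V} (hG : Good G a x y)
    (hF : Far G x y m1 m2) (hm : 1 ≤ m1) : ∃ u : V,
      Good (sub G u x) (a + 1) (Sum.inl x) (Sum.inl y) ∧
      Far (sub G u x) (Sum.inl x) (Sum.inl y) m2 (m1 + 2) := by
  classical
  obtain ⟨h, u, w, huw, hu, hw, hnb, hy, hlip, h1, h2⟩ := hF.ex
  have huy : u ≠ y := by
    rintro rfl
    omega
  refine ⟨u, good_sub hG u hu huy, ?_, ?_⟩
  · refine ⟨fun s => match s with
      | Sum.inl s => h s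
      | Sum.inr b => if b then h u + 2 else h u + 1,
      Sum.inl w, Sum.inr true, by simp, ?_, ?_, ?_, hy, ?_, h2, ?_⟩
    · refine sub_inl.2 ⟨hw, ?_⟩
      rintro (h3 | h3)
      · exact huw h3.1.symm
      · exact hw.ne h3.1
    · exact (sub_t.2 rfl : (sub G u x).Adj (Sum.inl x) (Sum.inr true)).symm
    · intro p hp
      rcases p with p | b
      · rw [sub_inl] at hp
        rcases hnb p hp.1 with h3 | h3
        · exact absurd (Or.inr ⟨rfl, h3⟩) hp.2
        · exact Or.inl (congrArg _ h3)
      · cases b
        · rw [sub_f] at hp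
          exact absurd hp hu.ne.symm
        · exact Or.inr rfl
    · intro p q hpq hpx hqx
      rcases p with p | b
      · rcases q with q | c
        · rw [sub_inl] at hpq
          exact hlip p q hpq.1 (fun e => hpx (congrArg _ e)) (fun e => hqx (congrArg _ e))
        · cases c
          · rw [sub_f] at hpq
            subst hpq
            simp
          · rw [sub_t] at hpq
            exact absurd (congrArg _ hpq) hpx
      · rcases q with q | c
        · cases b
          · have h3 := sub_f.1 hpq.symm
            subst h3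
            simp
            omega
          · have h3 := sub_t.1 hpq.symm
            exact absurd (congrArg _ h3) hqx
        · cases b <;> cases c <;> simp
    · simp only [if_true]
      omega
  · intro v
    rcases v with s | b
    · obtain ⟨p, q, hpq, hp, hq⟩ := hF.deg s
      set τ : V → V ⊕ Bool := fun r =>
        if s = u ∧ r = x then Sum.inr false else if s = x ∧ r = u then Sum.inr true
        else Sum.inl r with hτ
      have hadj : ∀ r, G.Adj s r → (sub G u x).Adj (Sum.inl s) (τ r) := by
        intro r hr
        simp only [hτ]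
        split_ifs with h3 h4
        · exact sub_f.2 h3.1
        · exact sub_t.2 h4.1
        · exact sub_inl.2 ⟨hr, by tauto⟩
      have hinj : ∀ r r', τ r = τ r' → r = r' := by
        intro r r'
        simp only [hτ]
        split_ifs with h3 h4 h5 h6 h7 h8 h9 <;> intro h10
        · exact h3.2.trans h4.2.symm
        · simp at h10
        · simp at h10
        · simp at h10
        · exact h6.2.trans h8.2.symm
        · simp at h10
        · simp at h10
        · simp at h10
        · exact Sum.inl.inj h10
      exact ⟨τ p, τ q, fun e => hpq (hinj p q e), hadj p hp, hadj q hq⟩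
    · cases b
      · exact ⟨Sum.inl u, Sum.inr true, by simp,
          (sub_f.2 rfl : (sub G u x).Adj (Sum.inl u) (Sum.inr false)).symm, sub_rr.2 (by simp)⟩
      · exact ⟨Sum.inl x, Sum.inr false, by simp,
          (sub_t.2 rfl : (sub G u x).Adj (Sum.inl x) (Sum.inr true)).symm, sub_rr.2 (by simp)⟩

/-- a function that changes by at most one along the edges -/
theorem far_lip {G : SimpleGraph V} {m1 m2 c : ℕ} {x y : V} (hF : Far G x y m1 m2) (hxy : x ≠ y)
    (h1 : c ≤ m1 + 1) (h2 : c ≤ m2 + 1) :
    ∃ g : V → ℕ, g y = 0 ∧ g x = c ∧ ∀ p q, G.Adj p q → g q ≤ g p + 1 := by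
  classical
  obtain ⟨h, u, w, _, _, _, hnb, hy, hlip, h3, h4⟩ := hF.ex
  have hge : ∀ p, G.Adj x p → c ≤ h p + 1 := by
    intro p hp
    rcases hnb p hp with rfl | rfl
    · omega
    · omega
  refine ⟨fun v => if v = x then c else min (h v) c, ?_, by simp, ?_⟩
  · simp [hxy.symm, hy]
  · intro p q hpq
    by_cases hp : p = x
    · subst hp
      have hq : q ≠ p := hpq.ne.symm
      simp only [if_neg hq, if_true]
      omega
    · by_cases hq : q = x
      · subst hq
        have := hge p hpq.symm
        simp only [if_neg hp, if_true]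
        omega
      · have := hlip p q hpq hp hq
        simp only [if_neg hp, if_neg hq]
        omega

end Pool.Agent.Y680.WD
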