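import Mathlib

/-!
Two operations on alpha-critical graphs with a pair of vertices that meets every maximum
independent set: doubling a vertex, and replacing an edge by a path with three edges.
-/

set_option autoImplicit false

namespace Pool.Agent.Y680.WD

open SimpleGraph

/-- `a` is the independence number of `G`, `G` is connected and alpha-critical, every maximum
independent set meets `{x, y}`, and `x` and `y` have degree at least two -/
structure Good {V : Type} (G : SimpleGraph V) (a : ℕ) (x y : V) : Prop where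
  bound : ∀ S : Finset V, G.IsIndepSet (S : Set V) → S.card ≤ a
  att : ∃ S : Finset V, G.IsIndepSet (S : Set V) ∧ S.card = a
  crit : ∀ u v : V, G.Adj u v → ∃ S : Finset V, S.card = a + 1 ∧ u ∈ S ∧ v ∈ S ∧
    ∀ p ∈ S, ∀ q ∈ S, G.Adj p q → (p = u ∧ q = v) ∨ (p = v ∧ q = u)
  noiso : ∀ v : V, ∃ w : V, G.Adj v w
  conn : G.Connected
  bad : ∀ S : Finset V, G.IsIndepSet (S : Set V) → S.card = a → x ∈ S ∨ y ∈ S
  degx : ∃ p q : V, p ≠ q ∧ G.Adj x p ∧ G.Adj x q
  degy : ∃ p q : V, p ≠ q ∧ G.Adj y p ∧ G.Adj y q
  hxy : x ≠ y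

variable {V : Type}

theorem indep_iff {W : Type} (H : SimpleGraph W) (S : Finset W) :
    H.IsIndepSet (S : Set W) ↔ ∀ p ∈ S, ∀ q ∈ S, ¬ H.Adj p q := by
  constructor
  · intro h p hp q hq hpq
    exact h (Finset.mem_coe.2 hp) (Finset.mem_coe.2 hq) hpq.ne hpq
  · intro h p hp q hq _ hpq
    exact h p (Finset.mem_coe.1 hp) q (Finset.mem_coe.1 hq) hpq

/-! ### doubling a vertex -/

/-- the projection of the doubled vertex -/
def pr (v : V) : Option V → V
  | none => v
  | some p => p

/-- the graph in which the vertex `v` is doubled -/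
def dbl (G : SimpleGraph V) (v : V) : SimpleGraph (Option V) where
  Adj s t := s ≠ t ∧ (pr v s = pr v t ∨ G.Adj (pr v s) (pr v t))
  symm := ⟨fun _ _ h => ⟨h.1.symm, h.2.imp Eq.symm fun h => h.symm⟩⟩
  loopless := ⟨fun _ h => h.1 rfl⟩

theorem dbl_some {G : SimpleGraph V} {v p q : V} :
    (dbl G v).Adj (some p) (some q) ↔ G.Adj p q := by
  constructor
  · rintro ⟨h1, h2 | h2⟩
    · exact absurd (congrArg some h2) h1
    · exact h2
  · intro h
    exact ⟨fun e => h.ne (Option.some.inj e), Or.inr h⟩

theorem good_dbl {G : SimpleGraph V} {a : ℕ} {x y : V} (h : Good G a x y) (v : V)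
    (hvx : v ≠ x) (hvy : v ≠ y) : Good (dbl G v) a (some x) (some y) := by
  classical
  have himg : ∀ S : Finset (Option V), (dbl G v).IsIndepSet (S : Set (Option V)) →
      G.IsIndepSet ((S.image (pr v) : Finset V) : Set V) ∧ (S.image (pr v)).card = S.card := by
    intro S hS
    rw [indep_iff] at hS
    constructor
    · rw [indep_iff]
      intro p hp q hq hpq
      rw [Finset.mem_image] at hp hq
      obtain ⟨s, hs, rfl⟩ := hp
      obtain ⟨t, ht, rfl⟩ := hq
      exact hS s hs t ht ⟨fun e => hpq.ne (congrArg _ e), Or.inr hpq⟩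
    · apply Finset.card_image_of_injOn
      intro s hs t ht hst
      by_contra hne
      exact hS s (Finset.mem_coe.1 hs) t (Finset.mem_coe.1 ht) ⟨hne, Or.inl hst⟩
  refine ⟨?_, ?_, ?_, ?_, ?_, ?_, ?_, ?_, ?_⟩
  · intro S hS
    rw [← (himg S hS).2]
    exact h.bound _ (himg S hS).1
  · obtain ⟨S, hS, hc⟩ := h.att
    refine ⟨S.map ⟨some, Option.some_injective V⟩, ?_, by rw [Finset.card_map, hc]⟩
    rw [indep_iff] at hS ⊢
    intro p hp q hq hpq
    rw [Finset.mem_map] at hp hq
    obtain ⟨s, hs, rfl⟩ := hp
    obtain ⟨t, ht, rfl⟩ := hq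
    exact hS s hs t ht (dbl_some.1 hpq)
  · rintro s t ⟨hst, he | he⟩
    · -- the doubled edge
      have hv : pr v s = v := by
        rcases s with _ | s
        · rfl
        · rcases t with _ | t
          · exact he
          · exact absurd (congrArg some he) hst
      obtain ⟨w, hw⟩ := h.noiso v
      obtain ⟨S, hc, hvS, hwS, hS⟩ := h.crit v w hw
      set T := S.erase w with hT
      have hvT : v ∈ T := Finset.mem_erase.2 ⟨hw.ne, hvS⟩
      have hTc : T.card = a := by rw [hT, Finset.card_erase_of_mem hwS, hc]; rfl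
      have hTi : ∀ p ∈ T, ∀ q ∈ T, ¬ G.Adj p q := by
        intro p hp q hq hpq
        have hp' := Finset.mem_erase.1 hp
        have hq' := Finset.mem_erase.1 hq
        rcases hS p hp'.2 q hq'.2 hpq with h1 | h1
        · exact hq'.1 h1.2
        · exact hp'.1 h1.1
      have hboth : (s = none ∧ t = some v) ∨ (s = some v ∧ t = none) := by
        rcases s with _ | s
        · rcases t with _ | t
          · exact absurd rfl hst
          · exact Or.inl ⟨rfl, congrArg some he.symm⟩
        · rcases t with _ | t
          · exact Or.inr ⟨congrArg some he, rfl⟩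
          · exact absurd (congrArg some he) hst
      refine ⟨insert none (T.map ⟨some, Option.some_injective V⟩), ?_, ?_, ?_, ?_⟩
      · rw [Finset.card_insert_of_notMem (by simp), Finset.card_map, hTc]
      · rcases hboth with ⟨rfl, rfl⟩ | ⟨rfl, rfl⟩
        · simp
        · simp [hvT]
      · rcases hboth with ⟨rfl, rfl⟩ | ⟨rfl, rfl⟩
        · simp [hvT]
        · simp
      · have key : ∀ q ∈ T, (dbl G v).Adj none (some q) → q = v := by
          rintro q hq ⟨_, h1 | h1⟩
          · exact h1.symm
          · exact absurd h1 (hTi v hvT q hq)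
        intro p hp q hq hpq
        rw [Finset.mem_insert, Finset.mem_map] at hp hq
        rcases hp with rfl | ⟨p, hp, rfl⟩
        · rcases hq with rfl | ⟨q, hq, rfl⟩
          · exact absurd rfl hpq.ne
          · have := key q hq hpq
            subst this
            rcases hboth with ⟨rfl, rfl⟩ | ⟨rfl, rfl⟩
            · exact Or.inl ⟨rfl, rfl⟩
            · exact Or.inr ⟨rfl, rfl⟩
        · rcases hq with rfl | ⟨q, hq, rfl⟩
          · have := key p hp hpq.symm
            subst this
            rcases hboth with ⟨rfl, rfl⟩ | ⟨rfl, rfl⟩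
            · exact Or.inr ⟨rfl, rfl⟩
            · exact Or.inl ⟨rfl, rfl⟩
          · exact absurd (dbl_some.1 hpq) (hTi p hp q hq)
    · obtain ⟨S, hc, hsS, htS, hS⟩ := h.crit _ _ he
      set σ : V → Option V := fun p =>
        if p = pr v s then s else if p = pr v t then t else some p with hσ
      have hπ : ∀ p, pr v (σ p) = p := by
        intro p
        simp only [hσ]
        split_ifs with h1 h2
        · exact h1.symm
        · exact h2.symm
        · rfl
      have hσs : σ (pr v s) = s := by simp [hσ]
      have hσt : σ (pr v t) = t := by simp [hσ, he.ne.symm]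
      have hinj : Function.Injective σ := Function.LeftInverse.injective hπ
      refine ⟨S.image σ, ?_, ?_, ?_, ?_⟩
      · rw [Finset.card_image_of_injective _ hinj, hc]
      · exact Finset.mem_image.2 ⟨_, hsS, hσs⟩
      · exact Finset.mem_image.2 ⟨_, htS, hσt⟩
      · intro p hp q hq hpq
        rw [Finset.mem_image] at hp hq
        obtain ⟨p, hp, rfl⟩ := hp
        obtain ⟨q, hq, rfl⟩ := hq
        obtain ⟨h1, h2 | h2⟩ := hpq
        · rw [hπ, hπ] at h2
          exact absurd (congrArg σ h2) h1
        · rw [hπ, hπ] at h2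
          rcases hS p hp q hq h2 with ⟨rfl, rfl⟩ | ⟨rfl, rfl⟩
          · exact Or.inl ⟨hσs, hσt⟩
          · exact Or.inr ⟨hσt, hσs⟩
  · intro s
    rcases s with _ | s
    · exact ⟨some v, by simp, Or.inl rfl⟩
    · obtain ⟨w, hw⟩ := h.noiso s
      exact ⟨some w, dbl_some.2 hw⟩
  · have hr : ∀ s t : V, (dbl G v).Reachable (some s) (some t) := by
      intro s t
      have := h.conn.preconnected s t
      exact this.map (⟨some, fun h => dbl_some.2 h⟩ : G →g dbl G v)
    have hn : (dbl G v).Reachable none (some v) :=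
      SimpleGraph.Adj.reachable ⟨by simp, Or.inl rfl⟩
    have hall : ∀ s : Option V, (dbl G v).Reachable (some v) s := by
      intro s
      rcases s with _ | s
      · exact hn.symm
      · exact hr v s
    exact { preconnected := fun s t => (hall s).symm.trans (hall t), nonempty := ⟨none⟩ }
  · intro S hS hc
    obtain ⟨h1, h2⟩ := himg S hS
    have hback : ∀ z : V, v ≠ z → z ∈ S.image (pr v) → some z ∈ S := by
      intro z hz hzS
      rw [Finset.mem_image] at hzS
      obtain ⟨s, hs, hsz⟩ := hzS
      rcases s with _ | s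
      · exact absurd hsz hz
      · have : s = z := hsz
        rwa [this] at hs
    rcases h.bad _ h1 (h2.trans hc) with h3 | h3
    · exact Or.inl (hback x hvx h3)
    · exact Or.inr (hback y hvy h3)
  · obtain ⟨p, q, hpq, h1, h2⟩ := h.degx
    exact ⟨some p, some q, fun e => hpq (Option.some.inj e), dbl_some.2 h1, dbl_some.2 h2⟩
  · obtain ⟨p, q, hpq, h1, h2⟩ := h.degy
    exact ⟨some p, some q, fun e => hpq (Option.some.inj e), dbl_some.2 h1, dbl_some.2 h2⟩
  · exact fun e => h.hxy (Option.some.inj e)

end Pool.Agent.Y680.WD
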