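import Pool.Agent.Y680.WD.Ops

/-!
Replacing an edge by a path with three edges.
-/

set_option autoImplicit false

namespace Pool.Agent.Y680.WD

open SimpleGraph

variable {V : Type}

/-- adjacency in the graph in which the edge `u v` is replaced by a path
`u, inr false, inr true, v` -/
def subAdj (G : SimpleGraph V) (u v : V) : V ⊕ Bool → V ⊕ Bool → Prop
  | Sum.inl s, Sum.inl t => G.Adj s t ∧ ¬ ((s = u ∧ t = v) ∨ (s = v ∧ t = u))
  | Sum.inl s, Sum.inr b => if b then s = v else s = u
  | Sum.inr b, Sum.inl s => if b then s = v else s = u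
  | Sum.inr b, Sum.inr c => b ≠ c

/-- the graph in which the edge `u v` is replaced by a path -/
def sub (G : SimpleGraph V) (u v : V) : SimpleGraph (V ⊕ Bool) where
  Adj := subAdj G u v
  symm := ⟨by
    rintro (s | b) (t | c) h
    · exact ⟨h.1.symm, fun h1 => h.2 (by tauto)⟩
    · exact h
    · exact h
    · exact fun e => h e.symm⟩
  loopless := ⟨by
    rintro (s | b) h
    · exact h.1.ne rfl
    · exact h rfl⟩

theorem sub_inl {G : SimpleGraph V} {u v s t : V} : (sub G u v).Adj (Sum.inl s) (Sum.inl t) ↔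
    G.Adj s t ∧ ¬ ((s = u ∧ t = v) ∨ (s = v ∧ t = u)) := Iff.rfl

theorem sub_f {G : SimpleGraph V} {u v s : V} :
    (sub G u v).Adj (Sum.inl s) (Sum.inr false) ↔ s = u := by
  show (if (false : Bool) = true then s = v else s = u) ↔ s = u
  simp

theorem sub_t {G : SimpleGraph V} {u v s : V} :
    (sub G u v).Adj (Sum.inl s) (Sum.inr true) ↔ s = v := by
  show (if (true : Bool) = true then s = v else s = u) ↔ s = v
  simp

theorem sub_rr {G : SimpleGraph V} {u v : V} {b c : Bool} :
    (sub G u v).Adj (Sum.inr b) (Sum.inr c) ↔ b ≠ c := Iff.rfl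

/-- lifting a set by a set of new vertices -/
def lift (S : Finset V) (B : Finset Bool) : Finset (V ⊕ Bool) := S.disjSum B

theorem mem_lift_l {S : Finset V} {B : Finset Bool} {s : V} :
    Sum.inl s ∈ lift S B ↔ s ∈ S := Finset.inl_mem_disjSum

theorem mem_lift_r {S : Finset V} {B : Finset Bool} {b : Bool} :
    Sum.inr b ∈ lift S B ↔ b ∈ B := Finset.inr_mem_disjSum

theorem card_lift (S : Finset V) (B : Finset Bool) : (lift S B).card = S.card + B.card :=
  Finset.card_disjSum _ _

theorem good_sub {G : SimpleGraph V} {a : ℕ} {x y : V} (h : Good G a x y) (u : V)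
    (hu : G.Adj u x) (huy : u ≠ y) : Good (sub G u x) (a + 1) (Sum.inl x) (Sum.inl y) := by
  classical
  -- the maximum independent set avoiding both ends of the edge
  obtain ⟨w, hwu, hxw⟩ : ∃ w, w ≠ u ∧ G.Adj x w := by
    obtain ⟨p, q, hpq, h1, h2⟩ := h.degx
    by_cases hp : p = u
    · exact ⟨q, fun e => hpq (hp.trans e.symm), h2⟩
    · exact ⟨p, hp, h1⟩
  have havoid : ∃ T : Finset V, T.card = a ∧ u ∉ T ∧ x ∉ T ∧ ∀ p ∈ T, ∀ q ∈ T, ¬ G.Adj p q := by
    obtain ⟨S, hc, hxS, hwS, hS⟩ := h.crit x w hxw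
    refine ⟨S.erase x, by rw [Finset.card_erase_of_mem hxS, hc]; rfl, ?_, by simp, ?_⟩
    · intro huT
      have huS := Finset.mem_of_mem_erase huT
      rcases hS u huS x hxS hu with h1 | h1
      · exact hu.ne h1.1
      · exact hwu h1.1.symm
    · intro p hp q hq hpq
      have hp' := Finset.mem_erase.1 hp
      have hq' := Finset.mem_erase.1 hq
      rcases hS p hp'.2 q hq'.2 hpq with h1 | h1
      · exact hp'.1 h1.1
      · exact hq'.1 h1.2
  -- decomposition of an independent set
  have hdec : ∀ S : Finset (V ⊕ Bool), (sub G u x).IsIndepSet (S : Set (V ⊕ Bool)) →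
      S.toLeft.card + S.toRight.card = S.card ∧ S.toRight.card ≤ 1 ∧
      ((u ∈ S.toLeft ∧ x ∈ S.toLeft ∧ S.toRight = ∅ ∧
          G.IsIndepSet ((S.toLeft.erase u : Finset V) : Set V)) ∨
        (¬ (u ∈ S.toLeft ∧ x ∈ S.toLeft) ∧ G.IsIndepSet (S.toLeft : Set V))) := by
    intro S hS
    rw [indep_iff] at hS
    refine ⟨Finset.card_toLeft_add_card_toRight, ?_, ?_⟩
    · rw [Finset.card_le_one]
      intro b hb c hc
      by_contra hbc
      rw [Finset.mem_toRight] at hb hc
      exact hS _ hb _ hc (sub_rr.2 hbc)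
    · by_cases hb : u ∈ S.toLeft ∧ x ∈ S.toLeft
      · refine Or.inl ⟨hb.1, hb.2, ?_, ?_⟩
        · rw [Finset.eq_empty_iff_forall_notMem]
          intro b hbS
          rw [Finset.mem_toRight] at hbS
          have h1 := Finset.mem_toLeft.1 hb.1
          have h2 := Finset.mem_toLeft.1 hb.2
          cases b
          · exact hS _ h1 _ hbS (sub_f.2 rfl)
          · exact hS _ h2 _ hbS (sub_t.2 rfl)
        · rw [indep_iff]
          intro p hp q hq hpq
          have hp' := Finset.mem_erase.1 hp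
          have hq' := Finset.mem_erase.1 hq
          refine hS _ (Finset.mem_toLeft.1 hp'.2) _ (Finset.mem_toLeft.1 hq'.2)
            (sub_inl.2 ⟨hpq, ?_⟩)
          rintro (h1 | h1)
          · exact hp'.1 h1.1
          · exact hq'.1 h1.2
      · refine Or.inr ⟨hb, ?_⟩
        rw [indep_iff]
        intro p hp q hq hpq
        refine hS _ (Finset.mem_toLeft.1 hp) _ (Finset.mem_toLeft.1 hq) (sub_inl.2 ⟨hpq, ?_⟩)
        rintro (⟨rfl, rfl⟩ | ⟨rfl, rfl⟩)
        · exact hb ⟨hp, hq⟩
        · exact hb ⟨hq, hp⟩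
  -- independence of lifted sets
  have hlift : ∀ (S : Finset V) (B : Finset Bool), (∀ b ∈ B, ∀ c ∈ B, b = c) →
      (false ∈ B → u ∉ S) → (true ∈ B → x ∉ S) → (∀ p ∈ S, ∀ q ∈ S, ¬ G.Adj p q) →
      ∀ p ∈ lift S B, ∀ q ∈ lift S B, ¬ (sub G u x).Adj p q := by
    intro S B hB hf ht hS p hp q hq hpq
    rcases p with p | b
    · rcases q with q | c
      · exact hS p (mem_lift_l.1 hp) q (mem_lift_l.1 hq) (sub_inl.1 hpq).1
      · cases c
        · rw [sub_f] at hpq
          subst hpq
          exact hf (mem_lift_r.1 hq) (mem_lift_l.1 hp)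
        · rw [sub_t] at hpq
          subst hpq
          exact ht (mem_lift_r.1 hq) (mem_lift_l.1 hp)
    · rcases q with q | c
      · cases b
        · have h1 := sub_f.1 hpq.symm
          subst h1
          exact hf (mem_lift_r.1 hp) (mem_lift_l.1 hq)
        · have h1 := sub_t.1 hpq.symm
          subst h1
          exact ht (mem_lift_r.1 hp) (mem_lift_l.1 hq)
      · exact (sub_rr.1 hpq) (hB _ (mem_lift_r.1 hp) _ (mem_lift_r.1 hq))
  refine ⟨?_, ?_, ?_, ?_, ?_, ?_, ?_, ?_, ?_⟩
  · intro S hS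
    obtain ⟨h1, h2, h3⟩ := hdec S hS
    rcases h3 with ⟨h4, _, h5, h6⟩ | ⟨_, h6⟩
    · have h7 := h.bound _ h6
      rw [Finset.card_erase_of_mem h4] at h7
      rw [h5, Finset.card_empty] at h1
      omega
    · have h7 := h.bound _ h6
      omega
  · obtain ⟨T, hc, h1, h2, h3⟩ := havoid
    refine ⟨lift T {false}, ?_, by rw [card_lift, hc]; rfl⟩
    rw [indep_iff]
    exact hlift T {false} (by simp) (fun _ => h1) (by simp) h3
  · -- criticality
    have hnew : ∀ (S : Finset V) (B : Finset Bool) (p q : V ⊕ Bool), (S.card + B.card = a + 2) →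
        p ∈ lift S B → q ∈ lift S B →
        (∀ s ∈ lift S B, ∀ t ∈ lift S B, (sub G u x).Adj s t → (s = p ∧ t = q) ∨ (s = q ∧ t = p)) →
        ∃ S' : Finset (V ⊕ Bool), S'.card = a + 1 + 1 ∧ p ∈ S' ∧ q ∈ S' ∧
          ∀ s ∈ S', ∀ t ∈ S', (sub G u x).Adj s t → (s = p ∧ t = q) ∨ (s = q ∧ t = p) :=
      fun S B p q h1 h2 h3 h4 => ⟨lift S B, by rw [card_lift, h1], h2, h3, h4⟩
    obtain ⟨S0, hc0, hu0, hx0, hS0⟩ := h.crit u x hu
    have hold : ∀ s ∈ S0, ∀ t ∈ S0, ¬ (sub G u x).Adj (Sum.inl s) (Sum.inl t) := by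
      intro s hs t ht hst
      rw [sub_inl] at hst
      exact hst.2 (hS0 s hs t ht hst.1)
    -- the edge `u, inr false`
    have hA : ∃ S' : Finset (V ⊕ Bool), S'.card = a + 1 + 1 ∧ Sum.inl u ∈ S' ∧
        Sum.inr false ∈ S' ∧ ∀ s ∈ S', ∀ t ∈ S', (sub G u x).Adj s t →
          (s = Sum.inl u ∧ t = Sum.inr false) ∨ (s = Sum.inr false ∧ t = Sum.inl u) := by
      refine hnew S0 {false} _ _ (by rw [hc0]; rfl) (mem_lift_l.2 hu0) (mem_lift_r.2 (by simp)) ?_
      intro s hs t ht hst
      rcases s with s | b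
      · rcases t with t | c
        · exact absurd hst (hold s (mem_lift_l.1 hs) t (mem_lift_l.1 ht))
        · have hc : c = false := Finset.mem_singleton.1 (mem_lift_r.1 ht)
          subst hc
          rw [sub_f] at hst
          exact Or.inl ⟨congrArg _ hst, rfl⟩
      · have hb : b = false := Finset.mem_singleton.1 (mem_lift_r.1 hs)
        subst hb
        rcases t with t | c
        · have := sub_f.1 hst.symm
          exact Or.inr ⟨rfl, congrArg _ this⟩
        · have hc : c = false := Finset.mem_singleton.1 (mem_lift_r.1 ht)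
          exact absurd hc.symm (sub_rr.1 hst)
    have hB : ∃ S' : Finset (V ⊕ Bool), S'.card = a + 1 + 1 ∧ Sum.inl x ∈ S' ∧
        Sum.inr true ∈ S' ∧ ∀ s ∈ S', ∀ t ∈ S', (sub G u x).Adj s t →
          (s = Sum.inl x ∧ t = Sum.inr true) ∨ (s = Sum.inr true ∧ t = Sum.inl x) := by
      refine hnew S0 {true} _ _ (by rw [hc0]; rfl) (mem_lift_l.2 hx0) (mem_lift_r.2 (by simp)) ?_
      intro s hs t ht hst
      rcases s with s | b
      · rcases t with t | c
        · exact absurd hst (hold s (mem_lift_l.1 hs) t (mem_lift_l.1 ht))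
        · have hc : c = true := Finset.mem_singleton.1 (mem_lift_r.1 ht)
          subst hc
          rw [sub_t] at hst
          exact Or.inl ⟨congrArg _ hst, rfl⟩
      · have hb : b = true := Finset.mem_singleton.1 (mem_lift_r.1 hs)
        subst hb
        rcases t with t | c
        · have := sub_t.1 hst.symm
          exact Or.inr ⟨rfl, congrArg _ this⟩
        · have hc : c = true := Finset.mem_singleton.1 (mem_lift_r.1 ht)
          exact absurd hc.symm (sub_rr.1 hst)
    have hC : ∃ S' : Finset (V ⊕ Bool), S'.card = a + 1 + 1 ∧ Sum.inr false ∈ S' ∧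
        Sum.inr true ∈ S' ∧ ∀ s ∈ S', ∀ t ∈ S', (sub G u x).Adj s t →
          (s = Sum.inr false ∧ t = Sum.inr true) ∨ (s = Sum.inr true ∧ t = Sum.inr false) := by
      obtain ⟨T, hc, h1, h2, h3⟩ := havoid
      refine hnew T Finset.univ _ _ (by rw [hc]; rfl) (mem_lift_r.2 (by simp))
        (mem_lift_r.2 (by simp)) ?_
      intro s hs t ht hst
      rcases s with s | b
      · rcases t with t | c
        · exact absurd (sub_inl.1 hst).1 (h3 s (mem_lift_l.1 hs) t (mem_lift_l.1 ht))
        · cases c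
          · rw [sub_f] at hst
            exact absurd (mem_lift_l.1 hs) (hst ▸ h1)
          · rw [sub_t] at hst
            exact absurd (mem_lift_l.1 hs) (hst ▸ h2)
      · rcases t with t | c
        · cases b
          · have h4 := sub_f.1 hst.symm
            exact absurd (mem_lift_l.1 ht) (h4 ▸ h1)
          · have h4 := sub_t.1 hst.symm
            exact absurd (mem_lift_l.1 ht) (h4 ▸ h2)
        · have h4 := sub_rr.1 hst
          cases b <;> cases c
          · exact absurd rfl h4
          · exact Or.inl ⟨rfl, rfl⟩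
          · exact Or.inr ⟨rfl, rfl⟩
          · exact absurd rfl h4
    have hsw : ∀ p q : V ⊕ Bool, (∃ S' : Finset (V ⊕ Bool), S'.card = a + 1 + 1 ∧ p ∈ S' ∧
        q ∈ S' ∧ ∀ s ∈ S', ∀ t ∈ S', (sub G u x).Adj s t → (s = p ∧ t = q) ∨ (s = q ∧ t = p)) →
        ∃ S' : Finset (V ⊕ Bool), S'.card = a + 1 + 1 ∧ q ∈ S' ∧ p ∈ S' ∧
          ∀ s ∈ S', ∀ t ∈ S', (sub G u x).Adj s t → (s = q ∧ t = p) ∨ (s = p ∧ t = q) := by
      rintro p q ⟨S, h1, h2, h3, h4⟩
      exact ⟨S, h1, h3, h2, fun s hs t ht hst => (h4 s hs t ht hst).symm⟩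
    intro p q hpq
    rcases p with p | b
    · rcases q with q | c
      · rw [sub_inl] at hpq
        obtain ⟨S, hc, hpS, hqS, hS⟩ := h.crit p q hpq.1
        have hnb : ¬ (u ∈ S ∧ x ∈ S) := by
          rintro ⟨h1, h2⟩
          rcases hS u h1 x h2 hu with ⟨rfl, rfl⟩ | ⟨rfl, rfl⟩
          · exact hpq.2 (Or.inl ⟨rfl, rfl⟩)
          · exact hpq.2 (Or.inr ⟨rfl, rfl⟩)
        have hfin : ∀ b : Bool, (b = false → u ∉ S) → (b = true → x ∉ S) →
            ∃ S' : Finset (V ⊕ Bool), S'.card = a + 1 + 1 ∧ Sum.inl p ∈ S' ∧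
              Sum.inl q ∈ S' ∧ ∀ s ∈ S', ∀ t ∈ S', (sub G u x).Adj s t →
              (s = Sum.inl p ∧ t = Sum.inl q) ∨ (s = Sum.inl q ∧ t = Sum.inl p) := by
          intro b hf ht
          have hone : ∀ s ∈ S, ¬ (sub G u x).Adj (Sum.inl s) (Sum.inr b) := by
            intro s hs hst
            cases b
            · rw [sub_f] at hst
              exact hf rfl (hst ▸ hs)
            · rw [sub_t] at hst
              exact ht rfl (hst ▸ hs)
          refine hnew S {b} _ _ (by rw [hc]; rfl) (mem_lift_l.2 hpS) (mem_lift_l.2 hqS) ?_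
          intro s hs t ht' hst
          rcases s with s | c
          · rcases t with t | c
            · rcases hS s (mem_lift_l.1 hs) t (mem_lift_l.1 ht') (sub_inl.1 hst).1 with
                ⟨rfl, rfl⟩ | ⟨rfl, rfl⟩
              · exact Or.inl ⟨rfl, rfl⟩
              · exact Or.inr ⟨rfl, rfl⟩
            · have hcb : c = b := Finset.mem_singleton.1 (mem_lift_r.1 ht')
              subst hcb
              exact absurd hst (hone s (mem_lift_l.1 hs))
          · have hcb : c = b := Finset.mem_singleton.1 (mem_lift_r.1 hs)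
            subst hcb
            rcases t with t | d
            · exact absurd hst.symm (hone t (mem_lift_l.1 ht'))
            · have hdb : d = c := Finset.mem_singleton.1 (mem_lift_r.1 ht')
              exact absurd hdb.symm (sub_rr.1 hst)
        by_cases huS : u ∈ S
        · exact hfin true (by simp) (fun _ hxS => hnb ⟨huS, hxS⟩)
        · exact hfin false (fun _ => huS) (by simp)
      · cases c
        · rw [sub_f] at hpq
          subst hpq
          exact hA
        · rw [sub_t] at hpq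
          subst hpq
          exact hB
    · rcases q with q | c
      · cases b
        · have h1 := sub_f.1 hpq.symm
          subst h1
          exact hsw _ _ hA
        · have h1 := sub_t.1 hpq.symm
          subst h1
          exact hsw _ _ hB
      · have h1 := sub_rr.1 hpq
        cases b <;> cases c
        · exact absurd rfl h1
        · exact hC
        · exact hsw _ _ hC
        · exact absurd rfl h1
  · intro s
    rcases s with s | b
    · obtain ⟨t, ht⟩ := h.noiso s
      by_cases hst : (s = u ∧ t = x) ∨ (s = x ∧ t = u)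
      · rcases hst with ⟨rfl, _⟩ | ⟨rfl, _⟩
        · exact ⟨Sum.inr false, sub_f.2 rfl⟩
        · exact ⟨Sum.inr true, sub_t.2 rfl⟩
      · exact ⟨Sum.inl t, sub_inl.2 ⟨ht, hst⟩⟩
    · exact ⟨Sum.inr (!b), sub_rr.2 (by cases b <;> simp)⟩
  · have h1 : (sub G u x).Reachable (Sum.inl u) (Sum.inr false) :=
      SimpleGraph.Adj.reachable (sub_f.2 rfl)
    have h2 : (sub G u x).Reachable (Sum.inl x) (Sum.inr true) :=
      SimpleGraph.Adj.reachable (sub_t.2 rfl)
    have h3 : (sub G u x).Reachable (Sum.inr false) (Sum.inr true) :=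
      SimpleGraph.Adj.reachable (sub_rr.2 (by simp))
    have hux : (sub G u x).Reachable (Sum.inl u) (Sum.inl x) := (h1.trans h3).trans h2.symm
    have hadj : ∀ s t : V, G.Adj s t → (sub G u x).Reachable (Sum.inl s) (Sum.inl t) := by
      intro s t hst
      by_cases he : (s = u ∧ t = x) ∨ (s = x ∧ t = u)
      · rcases he with ⟨rfl, rfl⟩ | ⟨rfl, rfl⟩
        · exact hux
        · exact hux.symm
      · exact SimpleGraph.Adj.reachable (sub_inl.2 ⟨hst, he⟩)
    have hr : ∀ s t : V, (sub G u x).Reachable (Sum.inl s) (Sum.inl t) := by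
      intro s t
      obtain ⟨p⟩ := h.conn.preconnected s t
      induction p with
      | nil => exact SimpleGraph.Reachable.refl _
      | cons h4 _ ih => exact (hadj _ _ h4).trans ih
    have hall : ∀ s : V ⊕ Bool, (sub G u x).Reachable (Sum.inl x) s := by
      intro s
      rcases s with s | b
      · exact hr x s
      · cases b
        · exact (hr x u).trans h1
        · exact h2
    exact { preconnected := fun s t => (hall s).symm.trans (hall t), nonempty := ⟨Sum.inl x⟩ }
  · intro S hS hc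
    obtain ⟨h1, h2, h3⟩ := hdec S hS
    rcases h3 with ⟨_, h5, _, _⟩ | ⟨_, h6⟩
    · exact Or.inl (Finset.mem_toLeft.1 h5)
    · have h7 := h.bound _ h6
      have h8 : S.toLeft.card = a := by omega
      rcases h.bad _ h6 h8 with h9 | h9
      · exact Or.inl (Finset.mem_toLeft.1 h9)
      · exact Or.inr (Finset.mem_toLeft.1 h9)
  · refine ⟨Sum.inl w, Sum.inr true, by simp, sub_inl.2 ⟨hxw, ?_⟩, sub_t.2 rfl⟩
    rintro (h1 | h1)
    · exact hu.ne h1.1.symm
    · exact hwu h1.2
  · obtain ⟨p, q, hpq, h1, h2⟩ := h.degy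
    have hy : ∀ t : V, ¬ ((y = u ∧ t = x) ∨ (y = x ∧ t = u)) := by
      rintro t (h3 | h3)
      · exact huy h3.1.symm
      · exact h.hxy h3.1.symm
    exact ⟨Sum.inl p, Sum.inl q, fun e => hpq (Sum.inl.inj e), sub_inl.2 ⟨h1, hy p⟩,
      sub_inl.2 ⟨h2, hy q⟩⟩
  · exact fun e => h.hxy (Sum.inl.inj e)

end Pool.Agent.Y680.WD
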